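import Pool.Agent.T6.H26.HankMix

set_option autoImplicit false

/-! # The equivariant motivic monodromy conjecture for products of powers of forms over products of Hankel determinantal ideals

Let `x_0, …, x_{N - 1}` be the coordinates of the affine space. The Hankel matrices of rank at most `d`
form a closed subset `Σ_d`, `2 d < N`, of dimension `2 d`: the affine cone over the variety of
`d`-secant `(d - 1)`-planes of the rational normal curve of degree `N - 1`. Its ideal `I_{d + 1}` is
generated by the maximal minors of the `(d + 1) × (N - d)` Hankel matrix `(x_{i + j})`. Let `p t`,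
`t ∈ T`, be numbers with `2 p t < N`, distributed over blocks: `t` belongs to the block `β t ∈ B`. For
`b ∈ B` let

  `F_b = ∑_J y_{b,J} ∏_{β t = b} M_{t, J t}(x)`,

where `J` runs over the choices of one maximal minor `M_{t, J t}` (`hankel N (p t)`) of the
`p t × (N + 1 - p t)` Hankel matrix for each `t` in the block `b`, and the `y_{b,J}` are further
variables. So `F_b` is the form over the product of the ideals `I_{p t}`, `β t = b` (the `p t` may
be equal, so all products of powers of the `I_p` occur). Let `f = ∏ b, F_b ^ a b` (`hankMix`).

The resolution. Let `P` be the maximum of the `p t` with `a (β t) > 0`, and let `Y` be obtained from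
the affine space by blowing up `Σ_0 = {0}` and the strict transforms of `Σ_1, …, Σ_{P - 1}`, in this
order. It is smooth, and the exceptional divisors `E_0, …, E_{P - 1}` cross normally (Bertram; Thaddeus;
Vermeire). The multiplicity of the Jacobian determinant along `E_d` is `ν_d - 1` with `ν_d = N - 2 d`,
and `I_p` becomes the ideal of the divisor `∑_{d < p} (p - d) E_d`, for `p ≤ P`. So the product of the
ideals of a block is locally generated by one of the products `M_J = ∏_{β t = b} M_{t, J t}`, and `F_b`
is `M_J` times `y_{b,J} + ∑_{I ≠ J} g_I y_{b,I}`. Hence `Y` times the space of the `y` is an embedded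
resolution of `f`, with the components `E_d`, of multiplicity `N_d = ∑ t, a (β t) max (p t - d, 0)`,
and, for `a b > 0`, the strict transform of `F_b = 0`, with multiplicity `a b` and `ν = 1` (`mulHM`,
`nuH`; in these definitions all `d < (N + 1) / 2` are listed, the `d ≥ P` have the multiplicity `0`). It
is defined over the prime field.

By the formula of Denef and Loeser the equivariant motivic zeta function of `f` over
`X_s = {f = 0}` is `∑_I c_I ∏_{i ∈ I} 𝕃 ^ (-ν_i) T ^ (N_i) / (1 - 𝕃 ^ (-ν_i) T ^ (N_i))` (`dlZ`), where `I`
runs over the non-empty sets of components and `c_I ∈ 𝓜^μ_{X_s}` is `(𝕃 - 1) ^ (|I| - 1)` times the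
class of the covering of the stratum `I` with its action of `μ`. The ring `R` below is a
commutative ring with a unit `u`, for example `R = 𝓜^μ_{X_s}` with `u = 𝕃`.

The proof for the roots. A functional equation of `f` gives one of the product of the powers of the
ideals of the blocks, with the same `b` (`locEq_of_powProd`), which is, with its generators indexed
differently, one of a product of Hankel determinantal ideals; the divisors `E_d` are Rees divisors
of such a product (`R779.HK.chart_exists`), which gives the roots by a residue computation at a general
point of `E_d`. The roots `-(1 + l) / a b` come from the strict transforms. -/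

namespace Pool.Agent.Results.MP_b48657_ag.MixedHankel

open Pool.Agent.H628R4.TP Pool.Agent.TH192.DT Pool.Agent.R779.HK Pool.Agent.T6.H26.HankMix

/-- **The equivariant motivic monodromy conjecture for `f = ∏ b, F_b ^ a b`**, `F_b` the forms over
products of ideals of the minors of Hankel matrices, `2 p t < N`. There is a finite set `P` of pairs
`(a, b)`, `a < 0 < b`, such that `a / b` is a root of every `b'` with
`b'(s) f ^ s = P(s) f ^ (s + 1)`, in particular of the Bernstein-Sato polynomial of `f`, and for every
commutative ring `R` with a unit `u` (`𝓜^μ_{X_s}` and `𝕃`) every series which is given by the formula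
of Denef and Loeser on the resolution described above, with arbitrary `c I ∈ R`, lies in the ring
generated over `R` by `T` and the `1 / (1 - u ^ a T ^ b)`, `(a, b) ∈ P`. -/
theorem result {T B : Type} [Fintype T] [DecidableEq T] [Fintype B] [DecidableEq B] (N : ℕ)
    (p : T → ℕ) (β : T → B) (a : B → ℕ) (hp : ∀ t, 2 * p t < N) :
    ∃ P : Finset (ℤ × ℤ), (∀ q ∈ P, q.1 < 0 ∧ 0 < q.2 ∧
      ∀ b : Polynomial ℂ, IsBFunction (hankMix N p β a) b → b.eval ((q.1 : ℂ) / q.2) = 0) ∧
    ∀ (R : Type) [CommRing R] (u : Rˣ) (c : Finset {i // 0 < mulHM N p β a i} → R),
      dlZ u (nuH N B) (mulHM N p β a) c ∈ ratU u (P : Set (ℤ × ℤ)) :=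
  ⟨pairs (nuH N B) (mulHM N p β a),
    fun q hq => ⟨(pairs_sign _ _ (nuH_pos' N B) q hq).1, (pairs_sign _ _ (nuH_pos' N B) q hq).2,
    fun b hb => pairs_roots _ _ (nuH_pos' N B) b
      (fun i l hl => hmix_roots N p β a hp b hb i l hl) q hq⟩,
    fun _ _ u c => dlZ_mem u _ _ c⟩

end Pool.Agent.Results.MP_b48657_ag.MixedHankel
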