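import Mathlib
import Pool.Agent.T6.H16.MR.F3

/-!
# The equivariant motivic monodromy conjecture for towers with generic coefficients

Let `F ⊂ k ⊂ ℂ` be fields and let `f ∈ k[x_1, …, x_n]` be nonconstant. We prove the statement of Q1
for `f` (equivariant motivic zeta function with coefficients in `M^μ` over `X_s = {f = 0}`, roots of
the Bernstein-Sato polynomial of `f`) if, for some `κ`, in SOME polynomial coordinates of the affine
space of dimension `n + 2 κ`, the polynomial
`G_κ = f(x) + y_1 z_1 + … + y_κ z_κ`
is `∑_j c_j X ^ (v j) + h(X)`, where the `v j` are given exponents, the coefficients `c_j` are generic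
(outside of a hypersurface depending on the `v j` and `h` only), `h ∈ F[X]` is a fixed polynomial
with exponents in the Newton polyhedron of the `v j` (such as `0`), `κ N_a < |a|` for all
weights `a` of positive order, and the facets of the Newton polyhedron satisfy the condition
`Facets`: the candidate poles `κ - |a| / N_a` of `f` different from `-1` come from a facet with a
simplex which is not B1, or only from facets which are simplices or B1 in compatible directions.
The polynomial `f` itself can be degenerate with respect to its Newton polyhedron in all
coordinates, with non-isolated singularities, and non-generic.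

The main examples are towers: `f = Φ(x, g_1(x), …, g_κ(x))` with `g_i = q_i(x, g_1, …, g_(i-1))`, where
`Φ` and the `q_i` have given monomials and generic coefficients (and `Φ` also the terms of a fixed
`h(x, z)`). Then `G_κ` is, in suitable coordinates, `Φ(x, z) + ∑ y_i (z_i - q_i(x, z))`, the condition
on the weights is automatic, and the facet condition is on the Newton polyhedron of this polynomial.
The coefficients `1` of the `y_i z_i` are not generic, but the torus acts.

There are also versions at the origin of `k ^ n`, with the local Bernstein-Sato polynomial, and
also for the zeta function over `X_s`.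

`StablySparse` treats the case of affinely independent exponents, with all coefficients and
without the facet condition (all facets are simplices). Here the Newton polyhedra are arbitrary, up
to the condition `Facets`, as in the starting results `GenericCoefficients` and
`SimplicialOrB1Facets`, which are the case `κ = 0`.

Method. The motivic zeta function of `f` over `X_s` is a combination of the ones of `G_(κ+1)` and
`G_(κ+2)` over the points `(x, 0, 0)` (see `StablySparse`). The conditions pass from `G_κ` to `G_(κ+1)`
and `G_(κ+2)` with the two or four new variables and the new monomials `Y Z` (with generic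
coefficients, by the torus action): the rays of the new Newton polyhedron are analysed, and the
simplices which are not B1 and the compatible directions are extended by the new monomials. For
generic coefficients, the zeta functions over all orbit strata are controlled, and the
Bernstein-Sato polynomial of `G_κ` has the roots `-|a| / N_a` of the non-B1 simplices; if `b`
satisfies the functional equation for `f`, then `(s + 1) b(s + κ)` does for `G_κ`.
-/

set_option autoImplicit false

namespace Pool.Agent.Results.MP_b48657_ag.StablyGeneric

open MvPolynomial
open Pool.Agent.T6.H16.MR.SS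

/-- **The equivariant motivic monodromy conjecture (Bernstein-Sato form, over `X_s`, with the action
of `μ̂`) for stably generic polynomials.**

`Generic F r P`: there is a nonzero polynomial `g` over `F` such that `P k c` holds for all fields
`F ⊆ k ⊆ ℂ` and all `c ∈ k ^ r` with `g(c) ≠ 0`.

`Becomes κ v h c f`: the polynomial `f(x) + ∑_{i < κ} y_i z_i` in `n + 2 κ` variables becomes
`∑_j c_j X ^ (v j) + h` under a `k`-automorphism `θ` of the polynomial ring; `Becomes0`: where `θ` fixes
the origin. `Admiss loc κ v h` says that the `v j` are distinct and not `0`, that the exponents of `h`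
are in the Newton polyhedron of the `v j` and different from them, that `κ N_a < |a|` whenever
`N_a > 0`, and the condition `Facets` on the facets.

`IsTower π W h c f`: `f = Φ(x, g(x))` with `g_i = q_i(x, g(x))`, where `q_i` is the sum of the
`c_j X ^ (W j)` with label `π j = some i`, and `Φ` is the sum of those with label `none` and of `h`.
`Tower` and `Tower0`: conditions on the monomials (`q_i` involves only `x` and the `z_l`, `l < i`;
constant and linear terms; `Facets` for `Φ(x, z) + ∑ y_i (z_i - q_i(x, z))`).

`IsSum m u w c f`: `f = γ p ^ m + q` with `p = ∑_j α_j x ^ (u j)`, `q = ∑_j β_j x ^ (w j)`, `c = (γ, α, β)`.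
`Forms ω d u`: the `x ^ (u j)` are distinct monomials of degree `d` for the weights `ω`, and powers of all
`x_i` are among them.

`Conj f` is the statement of Q1 for `f : 𝔸^n → 𝔸^1`: for a finite set `S` of pairs `(a, b)`, `a < 0 < b`,
with `a / b` a root of all `b'` such that `b'(s) f ^ s = P(s) f ^ (s + 1)` for an operator `P(s)` in the Weyl
algebra (in particular of the Bernstein-Sato polynomial), the zeta function `Z_f(T)` lies in the
ring generated by `T` and the `1 / (1 - 𝕃 ^ a T ^ b)` over the localised Grothendieck ring of varieties
over `X_s` with good action of `μ̂`. `ConjL f` is the same statement for `Z_f(T)` and for the motivic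
zeta function at the origin, and for the functional equations with power series coefficients. -/
theorem result (F : Type) [Field F] [Algebra F ℂ] {n κ r r₁ r₂ : ℕ} :
    -- stably generic polynomials
    (∀ (v : Fin r → Fin (n + (κ + κ)) → ℕ) (h : MvPolynomial (Fin (n + (κ + κ))) F),
      Admiss False κ v h → Generic F r fun k _ _ _ c => ∀ f : MvPolynomial (Fin n) k,
        NonConst f → Becomes κ v h c f → Conj f) ∧
    -- with the local Bernstein-Sato polynomial at the origin
    (∀ (v : Fin r → Fin (n + (κ + κ)) → ℕ) (h : MvPolynomial (Fin (n + (κ + κ))) F),
      Admiss True κ v h → Generic F r fun k _ _ _ c => ∀ f : MvPolynomial (Fin n) k,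
        Germ f → Becomes0 κ v h c f → ConjL f) ∧
    -- towers
    (∀ (π : Fin r → Option (Fin κ)) (W : Fin r → Fin (n + κ) → ℕ)
      (h : MvPolynomial (Fin (n + κ)) F), Tower False π W h →
      Generic F r fun k _ _ _ c => ∀ f : MvPolynomial (Fin n) k,
        NonConst f → IsTower π W h c f → Conj f) ∧
    -- towers, with the local Bernstein-Sato polynomial at the origin
    (∀ (π : Fin r → Option (Fin κ)) (W : Fin r → Fin (n + κ) → ℕ)
      (h : MvPolynomial (Fin (n + κ)) F), Tower0 π W h →
      Generic F r fun k _ _ _ c => ∀ f : MvPolynomial (Fin n) k,
        Germ f → IsTower π W h c f → ConjL f) ∧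
    -- `f = γ p ^ m + q` with generic weighted homogeneous polynomials `p` and `q`
    (∀ (ω : Fin n → ℕ) (d e m : ℕ) (u : Fin r₁ → Fin n → ℕ) (w : Fin r₂ → Fin n → ℕ),
      2 ≤ n → 2 ≤ m → m * d < e → (∀ i, 0 < ω i) → (∀ i, ω i < d) → Forms ω d u → Forms ω e w →
      Generic F (1 + (r₁ + r₂)) fun k _ _ _ c => ∀ f : MvPolynomial (Fin n) k,
        IsSum m u w c f → Conj f ∧ ConjL f) :=
  ⟨fun v h H => gA v h H, fun v h H => gA0 v h H, fun π W h hW => gB π W h hW,
    fun π W h hW => gB0 π W h hW,
    fun _ _ _ _ _ _ hn hm hde hω hωd hu hw => Fm.gC ⟨hn, hm, hde, hω, hωd, hu, hw⟩⟩

end Pool.Agent.Results.MP_b48657_ag.StablyGeneric
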