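import Mathlib
import Pool.Agent.T6.H16.MR.Fin

/-!
# The equivariant motivic monodromy conjecture for stably sparse polynomials

Let `k ⊂ ℂ` and let `f ∈ k[x_1, …, x_n]` be nonconstant. We prove the statement of Q1 for `f`
(equivariant motivic zeta function with coefficients in `M^μ` over `X_s = {f = 0}`, roots of the
Bernstein-Sato polynomial of `f`) if, for some `κ`, in SOME polynomial coordinates of the affine space
of dimension `n + 2 κ`, the polynomial
`G_κ = f(x) + y_1 z_1 + … + y_κ z_κ`
has affinely independent exponents, and `κ N < |a|` for all weights `a` for which its order `N` is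
positive (for `κ = 0` this is no condition). The polynomial `f` itself can be degenerate with
respect to its Newton polyhedron in all coordinates, with non-isolated singularities.

The main examples are towers: `f = Φ(x, g_1(x), …, g_κ(x))` with `g_i = q_i(x, g_1, …, g_(i-1))`. In the
coordinates `z_i - g_i` (and suitable `y_i`), `G_κ` becomes `Φ(x, z) + ∑ y_i (z_i - q_i(x, z))`, and it
is enough that THIS polynomial has affinely independent exponents; the condition on the weights is
then automatic. For instance
`f = γ (α_1 x_1 ^ A_1 + … + α_n x_n ^ A_n) ^ c + δ x_1 ^ D_1 ⋯ x_n ^ D_n`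
with `∑ D_i / A_i ≠ c` and nonzero `α_i, γ, δ`, e.g. `(x ^ 2 + y ^ 3 + z ^ 5) ^ 2 + x y z`.

There are also versions at the origin of `k ^ n`, with the local Bernstein-Sato polynomial.

The starting result `MP_b91a16_ag.StablySparse` treats the local motivic zeta functions of these
polynomials at all points, without the action of `μ̂`. Here the zeta function is the one of Q1, with
the action and with coefficients in the Grothendieck ring of varieties over `X_s`.

Method.
1. The jets of `G_κ` at the points `(x, 0, 0)`, `x ∈ X_s`, are stratified by the order of `(y, z)`;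
   all strata but one are controlled by the jets of `f` alone, and the motivic zeta function
   of `f` over `X_s` becomes a combination of the ones of `G_(κ+1)` and `G_(κ+2)` over the points
   `(x, 0, 0)`, with `T` rescaled by powers of `𝕃`. This holds for all `f` and `κ`.
2. If `G_κ` is sparse in some polynomial coordinates, so are `G_(κ+1)` and `G_(κ+2)`. Coordinate
   changes carry jets to jets. For polynomials with affinely independent exponents, the motivic
   zeta function (over any constructible part of the zero set) is in the ring with the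
   denominators `1 - 𝕃 ^ (-1) T` and `1 - 𝕃 ^ (-|a|) T ^ N`, `-|a| / N` a root of `P` for all
   functional equations of the form `(s + 1) P(s)`.
3. If `b` satisfies the functional equation for `f`, then `(s + 1) b(s + κ)` does for `G_κ`, in all
   polynomial coordinates.
-/

set_option autoImplicit false

namespace Pool.Agent.Results.MP_b48657_ag.StablySparse

open MvPolynomial
open Pool.Agent.T6.H16.MR.SS

/-- **The equivariant motivic monodromy conjecture (Bernstein-Sato form, over `X_s`, with the action
of `μ̂`) for stably sparse polynomials.**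

`hypr f κ` is `f(x) + ∑_{i < κ} y_i z_i`, a polynomial in `n + 2 κ` variables; `PAut k m` is the group of
`k`-automorphisms of `k[X_1, …, X_m]`. `AffInd G`: the exponents of the monomials of `G` are affinely
independent. `WtBd κ G`: `κ N < |a|` whenever all the monomials of `G` have degree at least `N > 0` for
the weights `a`. `Fix θ`: the images of the variables have no constant term.
`Tri q`: `q_i` involves only `x` and the `z_j`, `j < i`. `sb g P` is `P(x, g(x))`, and `cay Φ q` is
`Φ(x, z) + ∑ y_i (z_i - q_i(x, z))`.

`Conj f` is the statement of Q1 for `f : 𝔸^n → 𝔸^1`: for a finite set `S` of pairs `(a, b)`, `a < 0 < b`,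
with `a / b` a root of all `b'` such that `b'(s) f ^ s = P(s) f ^ (s + 1)` for an operator `P(s)` in the Weyl
algebra (in particular of the Bernstein-Sato polynomial), the zeta function `Z_f(T)` lies in the
ring generated by `T` and the `1 / (1 - 𝕃 ^ a T ^ b)` over the localised Grothendieck ring of varieties
over `X_s` with good action of `μ̂`. `Conj0 f` is the same statement for the motivic zeta function
at the origin and the functional equations with power series coefficients. -/
theorem result (k : Type) [Field k] [Algebra k ℂ] {n κ : ℕ} :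
    -- stably sparse polynomials
    (∀ f : MvPolynomial (Fin n) k, f.totalDegree ≠ 0 → ∀ θ : PAut k (n + (κ + κ)),
      AffInd (θ (hypr f κ)) → WtBd κ (θ (hypr f κ)) → Conj f) ∧
    -- at the origin
    (∀ f : MvPolynomial (Fin n) k, f ≠ 0 → constantCoeff f = 0 → ∀ θ : PAut k (n + (κ + κ)),
      Fix θ → AffInd (θ (hypr f κ)) → WtBd κ (θ (hypr f κ)) → Conj0 f) ∧
    -- towers
    (∀ (Φ : MvPolynomial (Fin (n + κ)) k) (q : Fin κ → MvPolynomial (Fin (n + κ)) k), Tri q →
      ∀ g : Fin κ → MvPolynomial (Fin n) k, (∀ i, g i = sb g (q i)) →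
      (sb g Φ).totalDegree ≠ 0 → AffInd (cay Φ q) → Conj (sb g Φ)) ∧
    -- towers, at the origin
    (∀ (Φ : MvPolynomial (Fin (n + κ)) k) (q : Fin κ → MvPolynomial (Fin (n + κ)) k), Tri q →
      (∀ i, constantCoeff (q i) = 0) →
      (∀ j : Fin κ, coeff (Finsupp.single (Fin.natAdd n j) 1) Φ = 0) →
      ∀ g : Fin κ → MvPolynomial (Fin n) k, (∀ i, g i = sb g (q i)) →
      sb g Φ ≠ 0 → constantCoeff (sb g Φ) = 0 → AffInd (cay Φ q) → Conj0 (sb g Φ)) ∧
    -- an explicit family
    (0 < n → ∀ (A D : Fin n → ℕ) (c : ℕ) (α : Fin n → k) (γ δ : k), (∀ i, A i ≠ 0) → c ≠ 0 →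
      ∑ i, (D i : ℚ) / A i ≠ c → (∀ i, α i ≠ 0) → γ ≠ 0 → δ ≠ 0 →
      Conj (C γ * (∑ i, C (α i) * X i ^ A i) ^ c + C δ * ∏ i, X i ^ D i)) :=
  ⟨fun f hf θ h1 h2 => rA f hf θ h1 h2,
    fun f hf0 hf θ h0 h1 h2 => rA0 f hf0 hf θ h0 h1 h2,
    fun Φ q hq g hg hf h => rB Φ q hq g hg hf h,
    fun Φ q hq hq0 hlin g hg hf0 hf h => rB0 Φ q hq hq0 hlin g hg hf0 hf h,
    fun hn A D c α γ δ hA hc hD hα hγ hδ => rC hn A D c α γ δ hA hc hD hα hγ hδ⟩

end Pool.Agent.Results.MP_b48657_ag.StablySparse
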