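import Pool.Agent.T6.H26.PZK

set_option autoImplicit false

/-! # Zeta functions with characters: read-once formulas over plane curves, for every prime

The definitions are in `Pool/Agent/T6/H26/PZJ.lean` (`Formula`), `PZG.lean` (`ReadOnce`), `PXV.lean`
(`RS`, `Susp`, `zetaT`) and `PXM.lean` (`chD`). Let `χ` be a character of `ℤ_p ^ ×` of finite order,
given by a Dirichlet character `θ` modulo `p ^ c`, and extended to `ℚ_p ^ ×` with `χ(p) = 1`. The zeta
function `Z_F(s, χ) = ∫_{ℤ_p ^ V} χ(F(x)) |F(x)| ^ s dx` is, for almost all `p` and characters of
conductor `p`, the realization of the equivariant motivic zeta function of Denef and Loeser by counting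
points over `𝔽_p` with the character `χ`; the statement of the equivariant motivic conjecture for `F`
implies that the real parts of its poles are roots of `b_F`.

This is proved here for EVERY prime `p` and every `χ` (of any conductor), with the sharper statement that
for `χ ≠ 1` the real parts of the poles are roots of the REDUCED polynomial `b_F(s) / (s + 1)`, for two
classes of polynomials. The smaller class `Formula true` contains **all nonconstant polynomials in two
variables** and is closed under **arbitrary sums, products, powers and additive constants** in disjoint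
sets of variables; for example it contains
`F = ((g_1 + g_2) ^ 2 g_3 - 5) ^ 3 g_4 + 7 g_5 ^ 4 (g_6 + 1)`, each `g_i = g_i(x_i, y_i)` arbitrary. The
larger class `Formula false` contains moreover all polynomials `F` with `Susp S F` (suspensions of plane
curves and so on) and the class `RS Ks.gen` (linear forms over ideals), and is closed under products,
powers, and sums with a weighted homogeneous summand, in disjoint sets of variables; its weighted
homogeneous members belong to the smaller class.

Method. (A) Plane curves with characters (modules `PXA` to `PXK`): for `χ ≠ 1` the poles of plane curves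
are roots of the reduced polynomial. (B) Roots of sums (`stAdd`, modules `RAA`, `RAB`): for ANY
nonconstant polynomials `f(x)`, `g(z)`, the sums of roots of `b_f(s) / (s + 1)` and of `b_g(s) / (s + 1)`
are roots of `b_{f + g}(s) / (s + 1)`. The same for `(a + f) (b + g) - a b` with `a, b ≠ 0` (modules
`RAC`, `RAD`, `PZA`), so that roots at nonzero values are inherited by products. (C) Exponential sums at
all values: for a plane curve `g`, `E_g(u, m) = ∫ exp (2 π i u g(x) / p ^ m) dx` is a finite sum
`∑_c exp (2 π i u c / p ^ m) D_c(u, m)` over values `c` of `g`, where `D_c(u, m)` is locally constant in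
`u`, uniformly in `m`, with poles at roots of the reduced polynomials of `g - c` (`XC_curve`, modules
`PYA` to `PYG`). The structure is preserved by sums (`XC.add`), products (`XC.mul`, modules `PZB` to
`PZD`), powers and additive constants (`XC.pow`, `XC.addC`, modules `PZE`, `PZF`), and the `Z_F(s, χ)` are
obtained from the averages of `E_F` over `u (1 + p ^ c ℤ_p)` by Fourier inversion (`Eb_mem`, `Sx_red`). -/

namespace Pool.Agent.Results.MP_b48657_ag.TwistedReadOnce

open MvPolynomial Pool.Agent.H628R4.TP Pool.Agent.Y230.PT Pool.Agent.Y230.TH Pool.Agent.T6.H26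
open Pool.Agent.Y230.PS Pool.Agent.R852.PP Pool.Agent.W427.SMC Pool.Agent.T6.H26.PX

/-- **The zeta functions with characters, for every prime `p`: read-once formulas over plane curves.**
(1) Let `F` be in the class `Formula false` (or `Formula true`), and let `b` satisfy a functional
equation `b(s) F ^ s = P(s) F ^ (s + 1)`, for instance `b = b_F`. Then `b = (s + 1) q` for a polynomial
`q`, and for every prime `p`, every character of `ℤ_p ^ ×` which is given by a Dirichlet character `θ`
modulo `p ^ c`, `c ≥ 1`, and every pole `s₀` of the meromorphic continuation `Z` of the zeta function of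
`F` with this character: the real part of `s₀` is a root of `b`, and if `θ ≠ 1`, it is a root of `q`.
(2) All read-once formulas `F` over plane curves (`ReadOnce S F`: sums, products, powers, constants, in
disjoint sets of variables, from arbitrary nonconstant polynomials in one or two variables) are in
`Formula true`, and (3) all polynomials `F` with `Susp S F` are in `Formula false`. -/
theorem result :
    (∀ {V : Type} [Fintype V] [DecidableEq V] (F : MvPolynomial V ℚ) (k : Bool) (S : Finset V)
      (_ : Formula k S F) (b : Polynomial ℂ) (_ : IsBFunction (map (algebraMap ℚ ℂ) F) b),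
      ∃ q : Polynomial ℂ, b = (Polynomial.X + 1) * q ∧
        ∀ (p : ℕ) [Fact p.Prime] (c : ℕ) (_ : 1 ≤ c) (θ : DirichletCharacter ℂ (p ^ c))
          (Z : ℂ → ℂ) (_ : MeromorphicOn Z Set.univ)
          (_ : ∀ s : ℂ, 0 < s.re → Z s = zetaT p θ F s) (s₀ : ℂ),
          meromorphicOrderAt Z s₀ < 0 →
            b.eval (s₀.re : ℂ) = 0 ∧ (θ ≠ 1 → q.eval (s₀.re : ℂ) = 0)) ∧
    (∀ {V : Type} [DecidableEq V] (F : MvPolynomial V ℚ) (S : Finset V), ReadOnce S F →
      Formula true S F) ∧
    ∀ {V : Type} [DecidableEq V] (F : MvPolynomial V ℚ) (S : Finset V), Susp S F →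
      Formula false S F := by
  refine ⟨fun {V} _ _ F k S hF b hb => ?_, fun F S h => form_ro S F h, fun F S h => form_susp S F h⟩
  obtain ⟨q, rfl⟩ := fac (form_MG (p := 2) k S F hF).1 b hb
  exact ⟨q, rfl, fun p _ c hc θ Z hZ hZp s₀ hs =>
    ⟨mg_T θ hc F (form_MG k S F hF) _ hb Z hZ hZp s₀ hs,
      fun hθ => mg_N θ hc hθ F (form_MG k S F hF) q hb Z hZ hZp s₀ hs⟩⟩

end Pool.Agent.Results.MP_b48657_ag.TwistedReadOnce
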